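import Pool.Agent.Helper89.SP.Defs
import Pool.Agent.Helper5.FA.F1b

/-!
Project SP (MP_66ebcc_gt), module SP-05a: the elementary bounds of `P`.
-/

set_option autoImplicit false

open MeasureTheory Set Real Slab

namespace Pool.Agent.Helper89.SP

theorem p5_int {φ : ℝ → ℝ} (ha : Antitone φ) {B : ℝ} (hb : ∀ s, 0 ≤ φ s ∧ φ s ≤ B) (x s : ℝ) :
    IntervalIntegrable (fun u => φ (s - x * u)) volume (-1) 1 := by
  rw [intervalIntegrable_iff]
  refine Measure.integrableOn_of_bounded (M := B) ?_ ?_ ?_
  · exact ((measure_mono uIoc_subset_uIcc).trans_lt isCompact_uIcc.measure_lt_top).ne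
  · exact (ha.measurable.comp (by fun_prop)).aestronglyMeasurable
  · refine Filter.Eventually.of_forall fun u => ?_
    rw [Real.norm_eq_abs, abs_of_nonneg (hb _).1]
    exact (hb _).2

theorem p5_props (l : List ℝ) :
    Antitone (AL l H) ∧ ∀ s, 0 ≤ AL l H s ∧ AL l H s ≤ 2 ^ l.length := by
  induction l with
  | nil =>
    rw [AL_nil]
    refine ⟨fun a b hab => ?_, fun s => ?_⟩
    · unfold H
      split_ifs with h1 h2 h2
      · exact le_refl _
      · exact absurd (lt_of_le_of_lt hab h1) h2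
      · exact zero_le_one
      · exact le_refl _
    · unfold H
      split_ifs <;> simp
  | cons x l ih =>
    obtain ⟨ia, ib⟩ := ih
    rw [AL_cons]
    refine ⟨fun a b hab => ?_, fun s => ⟨?_, ?_⟩⟩
    · unfold A
      refine intervalIntegral.integral_mono_on (by norm_num) (p5_int ia ib x b)
        (p5_int ia ib x a) fun u _ => ia ?_
      linarith
    · unfold A
      exact intervalIntegral.integral_nonneg (by norm_num) fun u _ => (ib _).1
    · unfold A
      have h := intervalIntegral.integral_mono_on (a := (-1 : ℝ)) (b := 1) (by norm_num)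
        (p5_int ia ib x s) (intervalIntegrable_const (c := (2 : ℝ) ^ l.length))
        fun u _ => (ib (s - x * u)).2
      refine h.trans (le_of_eq ?_)
      rw [intervalIntegral.integral_const, List.length_cons, pow_succ, smul_eq_mul]
      ring

theorem P_nonneg (l : List ℝ) (s : ℝ) : 0 ≤ P l s := by
  unfold P
  exact div_nonneg ((p5_props l).2 s).1 (by positivity)

theorem P_anti (l : List ℝ) {s s' : ℝ} (h : s ≤ s') : P l s' ≤ P l s := by
  unfold P
  exact div_le_div_of_nonneg_right ((p5_props l).1 h) (by positivity)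

theorem p5_sinh (y : ℝ) : ∫ u in (-1 : ℝ)..1, exp (y * u) ≤ 2 * exp (y ^ 2 / 6) := by
  have key : ∀ c : ℝ, 0 < c → ∫ u in (-1 : ℝ)..1, exp (c * u) ≤ 2 * exp (c ^ 2 / 6) := by
    intro c hc
    have h1 := Pool.Agent.Helper89.FA.f1b_sinh_le hc.le
    have h2 : ∫ u in (-1 : ℝ)..1, exp (c * u) = 2 * sinh c / c := by
      have hd : ∀ u ∈ uIcc (-1 : ℝ) 1, HasDerivAt (fun u => exp (c * u) / c) (exp (c * u)) u := by
        intro u _
        have h3 : HasDerivAt (fun u : ℝ => c * u) c u := by
          simpa using (hasDerivAt_id u).const_mul c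
        have h4 := h3.exp.div_const c
        refine h4.congr_deriv ?_
        field_simp
      rw [intervalIntegral.integral_eq_sub_of_hasDerivAt hd
        (Continuous.intervalIntegrable (by fun_prop) _ _), Real.sinh_eq]
      simp only [mul_one, mul_neg]
      field_simp
    rw [h2, div_le_iff₀ hc]
    linarith
  rcases lt_trichotomy y 0 with h | h | h
  · have h1 := key (-y) (by linarith)
    have h2 := intervalIntegral.integral_comp_neg (a := -1) (b := 1) (f := fun u => exp (y * u))
    rw [neg_neg] at h2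
    rw [← h2]
    have e : ∀ u : ℝ, y * -u = -y * u := fun u => by ring
    simp only [e]
    simpa using h1
  · subst h
    simp
    norm_num
  · exact key y h

theorem p5_exp (l : List ℝ) {m : ℝ} (hm : 0 ≤ m) (s : ℝ) :
    AL l H s ≤ 2 ^ l.length * exp (-(m * s) + m ^ 2 * sq l / 6) := by
  induction l generalizing s with
  | nil =>
    rw [AL_nil]
    unfold H sq
    split_ifs with h
    · simp
      nlinarith
    · positivity
  | cons x l ih =>
    obtain ⟨ia, ib⟩ := p5_props l
    rw [AL_cons]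
    unfold A
    have h := intervalIntegral.integral_mono_on (a := (-1 : ℝ)) (b := 1) (by norm_num)
        (p5_int ia ib x s)
        (Continuous.intervalIntegrable (u := fun u : ℝ =>
          2 ^ l.length * exp (-(m * (s - x * u)) + m ^ 2 * sq l / 6)) (by fun_prop) _ _)
        fun u _ => ih (s - x * u)
    refine h.trans ?_
    have e : ∀ u : ℝ, (2 : ℝ) ^ l.length * exp (-(m * (s - x * u)) + m ^ 2 * sq l / 6) =
        2 ^ l.length * exp (-(m * s) + m ^ 2 * sq l / 6) * exp ((m * x) * u) := by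
      intro u
      rw [mul_assoc, ← exp_add]
      congr 2
      ring
    simp only [e]
    rw [intervalIntegral.integral_const_mul]
    have h2 := p5_sinh (m * x)
    have h3 : (0 : ℝ) < 2 ^ l.length * exp (-(m * s) + m ^ 2 * sq l / 6) := by positivity
    refine (mul_le_mul_of_nonneg_left h2 h3.le).trans (le_of_eq ?_)
    have e2 : sq (x :: l) = x ^ 2 + sq l := by
      unfold sq
      simp
    rw [e2, List.length_cons, pow_succ (2 : ℝ)]
    have e3 : -(m * s) + m ^ 2 * (x ^ 2 + sq l) / 6 =
        (-(m * s) + m ^ 2 * sq l / 6) + (m * x) ^ 2 / 6 := by ring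
    rw [e3, exp_add (-(m * s) + m ^ 2 * sq l / 6)]
    ring

theorem P_le_exp (l : List ℝ) (hl : 0 < sq l) {s : ℝ} (hs : 0 ≤ s) :
    P l s ≤ exp (-(3 / 2) * (s ^ 2 / sq l)) := by
  have h := p5_exp l (m := 3 * s / sq l) (by positivity) s
  unfold P
  rw [div_le_iff₀ (by positivity), mul_comm]
  refine h.trans (le_of_eq ?_)
  congr 2
  field_simp
  ring

/-- at a maximiser `t x < 1` for every coordinate -/
theorem tx_lt {t x : ℝ} {l : List ℝ} (ht : 1.02 ≤ t) (hx : 0 < x) (hsq : sq (x :: l) = 1)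
    (hl : 0 < sq l) (hc : Crit t x l) (hT : 0.000013 < T (x :: l) t) : t * x < 1 := by
  by_contra hcon
  push Not at hcon
  have e2 : sq (x :: l) = x ^ 2 + sq l := by
    unfold sq
    simp
  rw [e2] at hsq
  have hsl : sq l = 1 - x ^ 2 := by linarith
  have h1 : P l (t + x) ≤ P l (t - x) := P_anti l (by linarith)
  have h2 := P_le_exp l hl (s := t + x) (by linarith)
  unfold Crit at hc
  have h3 : T (x :: l) t ≤ 2 * P l (t + x) := by
    rw [hc]
    nlinarith
  have h4 : 8 ≤ (t + x) ^ 2 / sq l := by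
    rw [le_div_iff₀ hl, hsl]
    have h5 : 1 + x ^ 2 ≤ (t + x) * x := by nlinarith
    have h6 : (1 + x ^ 2) ^ 2 ≤ ((t + x) * x) ^ 2 := by
      apply pow_le_pow_left₀ (by positivity) h5
    have h7 : 8 * (x ^ 2 * (1 - x ^ 2)) ≤ (1 + x ^ 2) ^ 2 := by
      nlinarith [sq_nonneg (1 - 3 * x ^ 2)]
    have h8 : x ^ 2 * (8 * (1 - x ^ 2)) ≤ x ^ 2 * (t + x) ^ 2 := by
      calc x ^ 2 * (8 * (1 - x ^ 2)) = 8 * (x ^ 2 * (1 - x ^ 2)) := by ring
        _ ≤ (1 + x ^ 2) ^ 2 := h7
        _ ≤ ((t + x) * x) ^ 2 := h6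
        _ = x ^ 2 * (t + x) ^ 2 := by ring
    exact le_of_mul_le_mul_left h8 (by positivity)
  have h9 : exp (-(3 / 2) * ((t + x) ^ 2 / sq l)) ≤ exp (-12) := by
    apply exp_le_exp.mpr
    linarith
  have h10 : exp (-12) < 0.0000065 := by
    rw [exp_neg, show (12 : ℝ) = ((12 : ℕ) : ℝ) * 1 by norm_num, exp_nat_mul]
    have h11 : (2.7182818283 : ℝ) ^ 12 < exp 1 ^ 12 := by
      apply pow_lt_pow_left₀ Real.exp_one_gt_d9 (by norm_num) (by norm_num)
    rw [inv_lt_comm₀ (by positivity) (by norm_num)]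
    refine lt_trans ?_ h11
    norm_num
  linarith

end Pool.Agent.Helper89.SP
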